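import Pool.Agent.Lib.MP_daea01_ag.Unif

/-!
Effective b-freeness of the moduli part when the generic fibre is, after a finite Galois
extension `L'` of the function field `L` of the total space, crepant to a weighted hyperplane
arrangement `(P^n, ∑ c_i {l_i = 0})` with `∑ c_i = n + 1`.  `K` is the function field of the base.
-/

namespace Pool.Agent.Results.MP_daea01_ag.Arrangements

open WithZero Pool.Agent.Lib.MP_daea01_ag

theorem result (d : ℕ) (Γ : Set ℝ) (hq : ∀ t ∈ Γ, ∃ q : ℚ, t = q)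
    (hdcc : ¬∃ f : ℕ → ℝ, StrictAnti f ∧ ∀ i, f i ∈ Γ) :
    ∃ I : ℕ, 0 < I ∧ ∀ (k K L L' : Type) [Field k] [Field K] [Field L] [Field L'] [CharZero k]
      [Algebra k K] [Algebra k L] [Algebra k L'] [Algebra K L] [Algebra K L'] [Algebra L L']
      [IsScalarTower k K L] [IsScalarTower k K L'] [IsScalarTower k L L'] [IsScalarTower K L L']
      [FiniteDimensional L L'] [IsGalois L L'],
      (⊤ : IntermediateField k L).FG →
      (∀ a : L, IsAlgebraic K a → a ∈ Set.range (algebraMap K L)) →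
      ∀ (b n m : ℕ) (x : Fin d → L) (z : Fin b → K) (y : Fin n → L'),
      IsTranscendenceBasis k x → IsTranscendenceBasis k z → IsTranscendenceBasis K y →
      ∀ (ρ : Lˣ →₀ ℝ) (Λ : Valuation K ℤᵐ⁰ → ℝ),
      (∀ v, IsPrime K v → 0 ≤ logDisc k x ρ v) →
      ∀ (C : Fin m → Fin (n + 1) → L') (l : Fin m → L') (c : Fin m → ℝ),
      (∀ i j, IsAlgebraic K (C i j)) → (∀ i, l i = C i 0 + ∑ j, C i j.succ * y j) →
      (∀ i, l i ≠ 0) → ∑ i, c i = n + 1 →
      (∀ (v : Valuation L ℤᵐ⁰) (v' : Valuation L' ℤᵐ⁰) (e : ℕ), IsPrime K v → IsPrime K v' →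
        Over v' v e → e * logDisc k x ρ v = 1 + ordForm K y v' - ∑ i, c i * ord v' (l i)) →
      ∀ H : Subgroup (Equiv.Perm (Fin m)), (∀ π ∈ H, ∀ i, c (π i) = c i) →
      (∀ σ : L' ≃ₐ[L] L', ∃ π ∈ H, ∃ g : L', ∀ i, ∃ u : L', IsAlgebraic K u ∧
        σ (l i) = g * u * l (π i)) →
      (∀ r : ℕ, 0 < r → (∀ i, ∃ a : ℕ, r * c i = a) → ∃ τ : Kˣ →₀ ℝ,
        BFree k fun w => (r * Nat.card H : ℕ) * (moduli k x z ρ Λ w + prin τ w)) ∧
      ((∀ i, c i ∈ Γ ∧ 0 < c i) → ∃ τ : Kˣ →₀ ℝ,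
        BFree k fun w => I * (moduli k x z ρ Λ w + prin τ w)) := by
  obtain ⟨r, M, hr, hb⟩ := dcc_bound d hq hdcc
  refine ⟨r * M.factorial, Nat.mul_pos hr M.factorial_pos, ?_⟩
  intro k K L L' _ _ _ _ _ _ _ _ _ _ _ _ _ _ _ _ _ hfg hK b n m x z y hx hz hy ρ Λ lc C l c hC hl
    h0 hc crep H hH gal
  have h1 := fun r => explicit (r := r) hfg hK hx hz hy ρ Λ hC hl h0 hc lc crep H hH gal
  refine ⟨h1, fun hΓ => ?_⟩
  obtain ⟨hm, ha⟩ := hb m n c (dim_eq hx hz hy ▸ Nat.le_add_left n b) hΓ hc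
  obtain ⟨τ, hτ⟩ := h1 r hr ha
  obtain ⟨j, hj⟩ : Nat.card H ∣ M.factorial := H.card_subgroup_dvd_card.trans (by
    rw [Nat.card_perm, Nat.card_fin]
    exact Nat.factorial_dvd_factorial hm)
  refine ⟨τ, ?_⟩
  convert hτ.mul j using 2
  rw [hj]
  push_cast
  ring

end Pool.Agent.Results.MP_daea01_ag.Arrangements
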